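import Pool.Agent.T6.H48.AM.Chain

/-!
# Birkhoff sums of periodic orbits which rarely visit a neighbourhood of their initial point
-/

set_option autoImplicit false

open Filter Set Metric

universe v w

namespace Pool.Agent.T6.H48.AM

open Pool.Agent.W564.SC Pool.Agent.W816.SC

section
variable {B : Type v} [MetricSpace B] {E : Type w} [NormedAddCommGroup E]

theorem norm_sum_sub_le {τ : B → E} {ε : ℝ} (u w : ℕ → B) (m : ℕ)
    (h : ∀ i < m, ‖τ (u i) - τ (w i)‖ ≤ ε) :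
    ‖∑ i ∈ Finset.range m, τ (u i) - ∑ i ∈ Finset.range m, τ (w i)‖ ≤ m * ε := by
  rw [← Finset.sum_sub_distrib]
  refine (norm_sum_le_of_le _ (fun i hi => h i (Finset.mem_range.1 hi))).trans ?_
  rw [Finset.sum_const, Finset.card_range, nsmul_eq_mul]

/-- points of a periodic orbit -/
theorem per_back {h : B → B} {P : ℕ} {p b : B} (hP : h^[P] p = p) (hP1 : 1 ≤ P) {i : ℕ}
    (hi : h^[i] p = b) (j : ℕ) : ∃ l, h^[j] p = h^[l] b := by
  refine ⟨j + (P * i - i), ?_⟩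
  rw [← hi, ← Function.iterate_add_apply]
  have h1 : i ≤ P * i := Nat.le_mul_of_pos_left i (by omega)
  rw [show j + (P * i - i) + i = j + P * i by omega, Function.iterate_add_apply h j (P * i),
    Function.iterate_mul]
  congr 1
  exact (Function.iterate_fixed hP i).symm

theorem dist_orbit_pos {h : B ≃ₜ B} {P : ℕ} {p b : B} (hP : h^[P] p = p) (hP1 : 1 ≤ P)
    (hb : ∀ i : ℕ, h^[i] p ≠ b) : ∃ c : ℝ, 0 < c ∧ ∀ i : ℕ, c ≤ dist (h^[i] p) b := by
  obtain ⟨i0, hi0, hmin⟩ := Finset.exists_min_image (Finset.range P)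
    (fun i => dist (h^[i] p) b) ⟨0, Finset.mem_range.2 (by omega)⟩
  refine ⟨dist (h^[i0] p) b, dist_pos.2 (hb i0), fun i => ?_⟩
  rw [iter_mod hP i]
  exact hmin _ (Finset.mem_range.2 (Nat.mod_lt _ (by omega)))

/-- every orbit segment has almost the same average as a periodic orbit which avoids `b` -/
theorem loops_exist (h : B ≃ₜ B) (hsh : PerShadow h) (hmix : ChainMix h) (τ : B → E)
    (b q : B) (hqb : ∀ i : ℕ, h^[i] q ≠ b) {T : ℝ}
    (hT : ∀ x, ‖τ x‖ ≤ T) {ε η : ℝ} (hε : 0 < ε) (hη : 0 < η)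
    (hτ : ∀ x y, dist x y < η → ‖τ x - τ y‖ ≤ ε) :
    ∃ L₀ L : ℕ, 1 ≤ L₀ ∧ 2 * L * T ≤ ε * L₀ ∧ ∀ c : B, ∃ p : B, h^[L₀ + 2 * L] p = p ∧
      (∀ i : ℕ, h^[i] p ≠ b) ∧
      ‖birkhoffSum h τ (L₀ + 2 * L) p - birkhoffSum h τ L₀ c‖ ≤ (L₀ + 2 * L : ℕ) * ε + 2 * L * T := by
  have hT0 : 0 ≤ T := (norm_nonneg _).trans (hT q)
  -- if `b` is periodic, then `q` is far from its orbit
  obtain ⟨c₀, hc₀, hc₀'⟩ : ∃ c₀ : ℝ, 0 < c₀ ∧ ∀ P : ℕ, 1 ≤ P → h^[P] b = b →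
      ∀ i : ℕ, c₀ ≤ dist (h^[i] b) q := by
    by_cases hb : ∃ P : ℕ, 1 ≤ P ∧ h^[P] b = b
    · obtain ⟨P, hP, hPb⟩ := hb
      have h1 : ∀ i : ℕ, h^[i] b ≠ q := by
        intro i hi
        obtain ⟨l, hl⟩ := per_back hPb hP hi 0
        exact hqb l hl.symm
      obtain ⟨c, hc, hc'⟩ := dist_orbit_pos hPb hP h1
      exact ⟨c, hc, fun _ _ _ => hc'⟩
    · push Not at hb
      exact ⟨1, one_pos, fun P hP hPb => absurd hPb (hb P hP)⟩
  obtain ⟨δ, hδ, Hδ⟩ := hsh (min η c₀) (lt_min hη hc₀)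
  obtain ⟨L, hL⟩ := hmix δ hδ
  obtain ⟨L₀, hL₀⟩ := exists_nat_gt (2 * L * T / ε)
  have hL₀' : 2 * L * T ≤ ε * (L₀ + 1 : ℕ) := by
    rw [div_lt_iff₀ hε] at hL₀
    push_cast
    nlinarith
  refine ⟨L₀ + 1, L, by omega, hL₀', fun c => ?_⟩
  obtain ⟨w1, hw10, hw11, hw12⟩ := hL L le_rfl q c
  obtain ⟨w2, hw20, hw21, hw22⟩ := hL L le_rfl (h^[L₀ + 1] c) q
  have k1 : Ch h τ δ L q c (∑ i ∈ Finset.range L, τ (w1 i)) := ⟨w1, hw10, hw11, hw12, rfl⟩
  have k2 := Ch.orbit h τ hδ (L₀ + 1) c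
  have k3 : Ch h τ δ L (h^[L₀ + 1] c) q (∑ i ∈ Finset.range L, τ (w2 i)) :=
    ⟨w2, hw20, hw21, hw22, rfl⟩
  obtain ⟨w, hw0, hw1, hw2, hw3⟩ := (k1.trans k2).trans k3
  have hP : L + (L₀ + 1) + L = L₀ + 1 + 2 * L := by ring
  rw [hP] at hw1 hw2 hw3
  obtain ⟨p, hp, hpw⟩ := Hδ (L₀ + 1 + 2 * L) w (by omega) (hw1.trans hw0.symm) hw2
  refine ⟨p, hp, fun i hi => ?_, ?_⟩
  · obtain ⟨l, hl⟩ := per_back hp (by omega) hi 0
    have h1 : h^[L₀ + 1 + 2 * L] b = b := by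
      rw [← hi, ← Function.iterate_add_apply, add_comm, Function.iterate_add_apply, hp]
    have h2 := hc₀' _ (by omega) h1 l
    have h3 := hpw 0 (by omega)
    rw [hw0, hl] at h3
    have h4 := h3.trans_le (min_le_right η c₀)
    linarith
  · have h1 : ‖birkhoffSum h τ (L₀ + 1 + 2 * L) p -
        ∑ i ∈ Finset.range (L₀ + 1 + 2 * L), τ (w i)‖ ≤ (L₀ + 1 + 2 * L : ℕ) * ε :=
      norm_sum_sub_le (fun i => h^[i] p) w _ fun i hi =>
        hτ _ _ ((hpw i hi).trans_le (min_le_left _ _))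
    have h2 : ‖∑ i ∈ Finset.range (L₀ + 1 + 2 * L), τ (w i) - birkhoffSum h τ (L₀ + 1) c‖ ≤
        2 * L * T := by
      rw [hw3]
      have e : ∑ i ∈ Finset.range L, τ (w1 i) + birkhoffSum h τ (L₀ + 1) c +
          ∑ i ∈ Finset.range L, τ (w2 i) - birkhoffSum h τ (L₀ + 1) c =
          ∑ i ∈ Finset.range L, τ (w1 i) + ∑ i ∈ Finset.range L, τ (w2 i) := by abel
      rw [e]
      have a1 := norm_sum_le' hT w1 L
      have a2 := norm_sum_le' hT w2 L
      refine (norm_add_le _ _).trans ?_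
      linarith
    have h3 := norm_sub_le_norm_sub_add_norm_sub (birkhoffSum h τ (L₀ + 1 + 2 * L) p)
      (∑ i ∈ Finset.range (L₀ + 1 + 2 * L), τ (w i)) (birkhoffSum h τ (L₀ + 1) c)
    linarith

theorem birkhoffSum_blocks (h : B → B) (τ : B → E) (L : ℕ) (b : B) (M : ℕ) :
    birkhoffSum h τ (M * L) b = ∑ i ∈ Finset.range M, birkhoffSum h τ L (h^[i * L] b) := by
  induction M with
  | zero => simp
  | succ M ih => rw [Nat.succ_mul, birkhoffSum_add, ih, Finset.sum_range_succ]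

theorem norm_birkhoffSum_le {h : B → B} {τ : B → E} {T : ℝ} (hT : ∀ x, ‖τ x‖ ≤ T) (m : ℕ) (x : B) :
    ‖birkhoffSum h τ m x‖ ≤ m * T :=
  norm_sum_le' hT (fun i => h^[i] x) m

end

theorem approx {B : Type v} [MetricSpace B] [CompactSpace B] [Nontrivial B] {E : Type w}
    [NormedAddCommGroup E] (h : B ≃ₜ B) (hsh : PerShadow h) (hmix : ChainMix h)
    (τ : B → E) (hτ : Continuous τ) (b : B) (ε η : ℝ) (hε : 0 < ε) (hη : 0 < η) :
    ∃ (ρ : ℝ) (C M₀ : ℕ), 0 < ρ ∧ ∀ m ≥ M₀, ∀ b₁ : B, ∃ b' : B, dist b' b < η ∧ h^[m] b' = b' ∧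
      ‖birkhoffSum h τ m b' - birkhoffSum h τ m b₁‖ ≤ m * ε ∧
      {i | i < m ∧ dist (h^[i] b') b' < ρ}.ncard ≤ C := by
  classical
  -- bounds
  obtain ⟨T, hT0, hT⟩ : ∃ T : ℝ, 0 ≤ T ∧ ∀ x, ‖τ x‖ ≤ T := by
    obtain ⟨T, hT⟩ := (isCompact_univ (X := B)).exists_bound_of_continuousOn hτ.continuousOn
    exact ⟨T, (norm_nonneg _).trans (hT b (mem_univ b)), fun x => hT x (mem_univ x)⟩
  obtain ⟨e, he⟩ : ∃ e : ℝ, e = ε / 6 := ⟨_, rfl⟩
  have he0 : 0 < e := by rw [he]; positivity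
  have huc := CompactSpace.uniformContinuous_of_continuous hτ
  rw [Metric.uniformContinuous_iff] at huc
  obtain ⟨η₁, hη₁, hτ₁'⟩ := huc e he0
  have hτ₁ : ∀ x y, dist x y < η₁ → ‖τ x - τ y‖ ≤ e := by
    intro x y hxy
    rw [← dist_eq_norm]
    exact (hτ₁' hxy).le
  obtain ⟨q, bq, hbq, hq, hqb⟩ := exists_other hsh hmix b
  obtain ⟨L₀, L, hL₀, hLT, hloop⟩ := loops_exist h hsh hmix τ b q hqb hT he0 hη₁ hτ₁
  choose pp hpp1 hpp2 hpp3 using hloop
  obtain ⟨P, hP⟩ : ∃ P : ℕ, P = L₀ + 2 * L := ⟨_, rfl⟩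
  rw [← hP] at hpp1 hpp3
  have hP1 : 1 ≤ P := by omega
  -- a finite net
  have ha : Continuous (fun c => birkhoffSum h τ L₀ c) := by
    unfold birkhoffSum
    exact continuous_finsetSum _ fun i _ => hτ.comp (h.continuous.iterate i)
  obtain ⟨t, -, ht⟩ := (isCompact_univ (X := B)).elim_nhds_subcover
    (fun c => {c' | ‖birkhoffSum h τ L₀ c - birkhoffSum h τ L₀ c'‖ < e}) (by
      intro c _
      have h1 : ContinuousAt (fun c' => ‖birkhoffSum h τ L₀ c - birkhoffSum h τ L₀ c'‖) c :=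
        (continuous_const.sub ha).norm.continuousAt
      apply h1.eventually_lt continuousAt_const
      rw [sub_self, norm_zero]
      exact he0)
  have ht' : ∀ c' : B, ∃ c ∈ t, ‖birkhoffSum h τ L₀ c - birkhoffSum h τ L₀ c'‖ < e := by
    intro c'
    have := ht (mem_univ c')
    simp only [mem_iUnion, mem_ofPred_eq] at this
    obtain ⟨c, hc, hc'⟩ := this
    exact ⟨c, hc, hc'⟩
  choose nt hnt1 hnt2 using ht'
  obtain ⟨S, hS⟩ : ∃ S : Finset B, S = t.image pp := ⟨_, rfl⟩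
  obtain ⟨ty, hty⟩ : ∃ ty : B → B, ty = fun c => pp (nt c) := ⟨_, rfl⟩
  have htyS : ∀ c, ty c ∈ S := by
    intro c
    rw [hS, hty]
    exact Finset.mem_image_of_mem pp (hnt1 c)
  have hty2 : ∀ c, ‖birkhoffSum h τ P (ty c) - birkhoffSum h τ L₀ c‖ ≤
      P * e + 2 * L * T + e := by
    intro c
    rw [hty]
    have h1 := hpp3 (nt c)
    have h2 := (hnt2 c).le
    have h3 := norm_sub_le_norm_sub_add_norm_sub (birkhoffSum h τ P (pp (nt c)))
      (birkhoffSum h τ L₀ (nt c)) (birkhoffSum h τ L₀ c)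
    dsimp only
    linarith
  have hSp : ∀ p ∈ S, h^[P] p = p ∧ ∀ i : ℕ, h^[i] p ≠ b := by
    intro p hp
    rw [hS, Finset.mem_image] at hp
    obtain ⟨c, -, rfl⟩ := hp
    exact ⟨hpp1 c, hpp2 c⟩
  have hSd : ∀ p ∈ S, ∃ c : ℝ, 0 < c ∧ ∀ i : ℕ, c ≤ dist (h^[i] p) b := fun p hp =>
    dist_orbit_pos (hSp p hp).1 hP1 (hSp p hp).2
  obtain ⟨c₁, hc₁, hc₁'⟩ : ∃ c₁ : ℝ, 0 < c₁ ∧ ∀ p ∈ S, ∀ i : ℕ, c₁ ≤ dist (h^[i] p) b := by
    choose! cf hcf hcf' using hSd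
    obtain ⟨c, hc, hc'⟩ := Pool.Agent.W216.SC.exists_pos_le S cf hcf
    exact ⟨c, hc, fun p hp i => (hc' p hp).trans (hcf' p hp i)⟩
  obtain ⟨c₂, hc₂, hc₂'⟩ := dist_orbit_pos hq hbq hqb
  obtain ⟨c, hc, hcc₁, hcc₂⟩ : ∃ c : ℝ, 0 < c ∧ c ≤ c₁ ∧ c ≤ c₂ :=
    ⟨min c₁ c₂, lt_min hc₁ hc₂, min_le_left _ _, min_le_right _ _⟩
  -- shadowing
  obtain ⟨δ, hδ, Hδ⟩ := hsh (min (min η η₁) (c / 4)) (lt_min (lt_min hη hη₁) (by positivity))
  obtain ⟨L', hL'⟩ := hmix δ hδ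
  have hLch : ∀ x y : B, ∃ A : E × ℕ, ‖A.1‖ ≤ L' * T ∧ A.2 ≤ L' ∧ Ch h (wt τ b c) δ L' x y A := by
    intro x y
    obtain ⟨w, hw0, hw1, hw2⟩ := hL' L' le_rfl x y
    refine ⟨_, ?_, ?_, w, hw0, hw1, hw2, rfl⟩
    · rw [sum_wt_fst]
      exact norm_sum_le' hT w L'
    · exact sum_wt_snd_le w L'
  obtain ⟨K, hK⟩ : ∃ K : ℕ, K = (S.card + 2) * L' := ⟨_, rfl⟩
  obtain ⟨M₀, hM₀⟩ := exists_nat_gt (2 * ((K + P : ℕ) * T) / e)
  refine ⟨c / 2, K, max M₀ (K + 1), by positivity, fun m hm b₁ => ?_⟩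
  have hmM₀ : M₀ ≤ m := (le_max_left _ _).trans hm
  have hmK : K + 1 ≤ m := (le_max_right _ _).trans hm
  obtain ⟨M, hM⟩ : ∃ M : ℕ, M = (m - K) / P := ⟨_, rfl⟩
  obtain ⟨r, hr⟩ : ∃ r : ℕ, r = (m - K) % P := ⟨_, rfl⟩
  have hrP : r < P := by rw [hr]; exact Nat.mod_lt _ (by omega)
  have hmMr : m = M * P + r + K := by
    have := Nat.div_add_mod (m - K) P
    rw [← hM, ← hr] at this
    rw [mul_comm] at this
    omega
  -- the numbers of the loops
  obtain ⟨n, hn⟩ : ∃ n : B → ℕ, n = fun p =>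
    ((Finset.range M).filter (fun i => ty (h^[i * L₀] b₁) = p)).card := ⟨_, rfl⟩
  have hn1 : ∑ p ∈ S, n p = M := by
    have := Finset.card_eq_sum_card_fiberwise (s := Finset.range M) (t := S)
      (f := fun i => ty (h^[i * L₀] b₁)) (fun i _ => htyS _)
    rw [Finset.card_range] at this
    rw [hn]
    exact this.symm
  have hn2 : ∑ p ∈ S, n p • birkhoffSum h τ P p =
      ∑ i ∈ Finset.range M, birkhoffSum h τ P (ty (h^[i * L₀] b₁)) := by
    rw [← Finset.sum_fiberwise_of_maps_to (s := Finset.range M) (t := S)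
      (g := fun i => ty (h^[i * L₀] b₁)) (fun i _ => htyS _)]
    refine Finset.sum_congr rfl fun p _ => ?_
    rw [hn]
    dsimp only
    rw [← Finset.sum_const]
    refine Finset.sum_congr rfl fun i hi => ?_
    rw [(Finset.mem_filter.1 hi).2]
  obtain ⟨y, A, hA1, hA2, hA3⟩ := tour hδ hLch n S
    (fun p hp => ⟨(hSp p hp).1, fun i => hcc₁.trans (hc₁' p hp i)⟩) b
  obtain ⟨A₁, hA11, hA12, hA13⟩ := hLch y q
  have hA4 := Ch.orbit h (wt τ b c) hδ r q
  rw [birkhoffSum_wt_of_far (fun i => hcc₂.trans (hc₂' i))] at hA4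
  obtain ⟨A₂, hA21, hA22, hA23⟩ := hLch (h^[r] q) b
  have hlen : ∑ p ∈ S, n p * P + S.card * L' + L' + r + L' = m := by
    rw [← Finset.sum_mul, hn1, hmMr, hK]
    ring
  obtain ⟨w, hw0, hw1, hw2, hw3⟩ := Ch.cast hlen (((hA1.trans hA13).trans hA4).trans hA23)
  obtain ⟨b', hb', hb'w⟩ := Hδ m w (by omega) (hw1.trans hw0.symm) hw2
  have hw4 : ∑ i ∈ Finset.range m, τ (w i) = A.1 + A₁.1 + birkhoffSum h τ r q + A₂.1 := by
    rw [← sum_wt_fst (τ := τ) (b := b) (c := c), hw3]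
    simp only [Prod.fst_add]
  have hw5 : (∑ i ∈ Finset.range m, wt τ b c (w i)).2 ≤ K := by
    rw [hw3]
    simp only [Prod.snd_add]
    rw [hK, Nat.add_mul]
    omega
  have hb0 : dist b' b < min (min η η₁) (c / 4) := by
    have := hb'w 0 (by omega)
    rwa [hw0] at this
  refine ⟨b', hb0.trans_le ((min_le_left _ _).trans (min_le_left _ _)), hb', ?_, ?_⟩
  · -- the sums
    have s1 : ‖birkhoffSum h τ m b' - ∑ i ∈ Finset.range m, τ (w i)‖ ≤ m * e :=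
      norm_sum_sub_le (fun i => h^[i] b') w _ fun i hi =>
        hτ₁ _ _ ((hb'w i hi).trans_le ((min_le_left _ _).trans (min_le_right _ _)))
    have s2 : ‖∑ i ∈ Finset.range m, τ (w i) - ∑ p ∈ S, n p • birkhoffSum h τ P p‖ ≤
        (K + P) * T := by
      rw [hw4]
      have e1 : A.1 + A₁.1 + birkhoffSum h τ r q + A₂.1 - ∑ p ∈ S, n p • birkhoffSum h τ P p =
          (A.1 - ∑ p ∈ S, n p • birkhoffSum h τ P p) + A₁.1 + birkhoffSum h τ r q + A₂.1 := by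
        abel
      rw [e1]
      have n1 := norm_add_le ((A.1 - ∑ p ∈ S, n p • birkhoffSum h τ P p) + A₁.1 +
        birkhoffSum h τ r q) A₂.1
      have n2 := norm_add_le ((A.1 - ∑ p ∈ S, n p • birkhoffSum h τ P p) + A₁.1)
        (birkhoffSum h τ r q)
      have n3 := norm_add_le (A.1 - ∑ p ∈ S, n p • birkhoffSum h τ P p) A₁.1
      have n4 := norm_birkhoffSum_le (h := h) hT r q
      have n5 : (r : ℝ) * T ≤ P * T := by
        have : (r : ℝ) ≤ P := by exact_mod_cast hrP.le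
        exact mul_le_mul_of_nonneg_right this hT0
      have n6 : ((K : ℝ) + P) * T = S.card * (L' * T) + L' * T + P * T + L' * T := by
        rw [hK]
        push_cast
        ring
      linarith
    have s3 : ‖∑ p ∈ S, n p • birkhoffSum h τ P p - birkhoffSum h τ (M * L₀) b₁‖ ≤
        M * (P * e + 2 * L * T + e) := by
      rw [hn2, birkhoffSum_blocks, ← Finset.sum_sub_distrib]
      refine (norm_sum_le_of_le _ (fun i _ => hty2 _)).trans ?_
      rw [Finset.sum_const, Finset.card_range, nsmul_eq_mul]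
    have hML : M * L₀ + (M * (2 * L) + r + K) = m := by
      rw [hmMr, hP]
      ring
    have s4 : ‖birkhoffSum h τ (M * L₀) b₁ - birkhoffSum h τ m b₁‖ ≤
        (M * (2 * L) + r + K : ℕ) * T := by
      rw [← hML, birkhoffSum_add, sub_add_cancel_left, norm_neg]
      exact norm_birkhoffSum_le hT _ _
    have s5 := norm_sub_le_norm_sub_add_norm_sub (birkhoffSum h τ m b')
      (∑ i ∈ Finset.range m, τ (w i)) (birkhoffSum h τ m b₁)
    have s6 := norm_sub_le_norm_sub_add_norm_sub (∑ i ∈ Finset.range m, τ (w i))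
      (∑ p ∈ S, n p • birkhoffSum h τ P p) (birkhoffSum h τ m b₁)
    have s7 := norm_sub_le_norm_sub_add_norm_sub (∑ p ∈ S, n p • birkhoffSum h τ P p)
      (birkhoffSum h τ (M * L₀) b₁) (birkhoffSum h τ m b₁)
    have hM0 : (0 : ℝ) ≤ M := Nat.cast_nonneg M
    have hMP : (M : ℝ) * P ≤ m := by
      have : M * P ≤ m := by omega
      exact_mod_cast this
    have hL₀P : (L₀ : ℝ) ≤ P := by
      have : L₀ ≤ P := by omega
      exact_mod_cast this
    have hP1' : (1 : ℝ) ≤ P := by exact_mod_cast hP1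
    have hML' : (M : ℝ) * (2 * L * T) ≤ e * m := by
      calc (M : ℝ) * (2 * L * T) ≤ M * (e * L₀) := mul_le_mul_of_nonneg_left hLT hM0
        _ ≤ M * (e * P) := by gcongr
        _ = e * (M * P) := by ring
        _ ≤ e * m := by gcongr
    have hMP' : (M : ℝ) * (P * e) ≤ e * m := by
      calc (M : ℝ) * (P * e) = e * (M * P) := by ring
        _ ≤ e * m := by gcongr
    have hMe : (M : ℝ) * e ≤ e * m := by
      calc (M : ℝ) * e = e * (M * 1) := by ring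
        _ ≤ e * (M * P) := by gcongr
        _ ≤ e * m := by gcongr
    have hrT : (r : ℝ) * T ≤ P * T := by
      have : (r : ℝ) ≤ P := by exact_mod_cast hrP.le
      exact mul_le_mul_of_nonneg_right this hT0
    have hfin : 2 * ((K + P) * T) ≤ e * m := by
      rw [div_lt_iff₀ he0] at hM₀
      push_cast at hM₀
      have : (M₀ : ℝ) ≤ m := by exact_mod_cast hmM₀
      nlinarith
    have s3' : (M : ℝ) * (P * e + 2 * L * T + e) =
        M * (P * e) + M * (2 * L * T) + M * e := by ring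
    have s4' : ((M * (2 * L) + r + K : ℕ) : ℝ) * T = M * (2 * L * T) + r * T + K * T := by
      push_cast
      ring
    rw [s3'] at s3
    rw [s4'] at s4
    have h6 : (m : ℝ) * ε = 6 * (e * m) := by rw [he]; ring
    have h7 : ((K : ℝ) + P) * T = K * T + P * T := by ring
    rw [h6]
    linarith
  · -- the visits
    refine (Set.ncard_le_ncard ?_ ((Set.finite_lt_nat m).subset fun _ hi => hi.1)).trans
      ((ncard_le_sum_wt (τ := τ) w m).trans hw5)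
    rintro i ⟨him, hi⟩
    refine ⟨him, ?_⟩
    have h1 := (hb'w i him).trans_le (min_le_right (min η η₁) (c / 4))
    have h2 := hb0.trans_le (min_le_right (min η η₁) (c / 4))
    have h3 := dist_triangle4 (w i) (h^[i] b') b' b
    rw [dist_comm (w i) (h^[i] b')] at h3
    linarith

end Pool.Agent.T6.H48.AM
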