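import Pool.Agent.W564.SC.Defs
import Pool.Agent.W816.SC.Flex
import Pool.Agent.W216.SC.A

/-!
# Weighted pseudo-orbits
-/

set_option autoImplicit false

open Filter Set Metric

universe v w

namespace Pool.Agent.T6.H48.AM

open Pool.Agent.W564.SC

/-- `δ`-pseudo-orbits of length `m` from `x` to `y` with weight `S` -/
def Ch {B : Type v} [MetricSpace B] {E : Type w} [AddCommMonoid E] (h : B → B) (f : B → E) (δ : ℝ)
    (m : ℕ) (x y : B) (S : E) : Prop :=
  ∃ w : ℕ → B, w 0 = x ∧ w m = y ∧ (∀ i < m, dist (h (w i)) (w (i + 1)) < δ) ∧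
    ∑ i ∈ Finset.range m, f (w i) = S

section
variable {B : Type v} [MetricSpace B] {E : Type w} [AddCommMonoid E] {h : B → B} {f : B → E} {δ : ℝ}
  {m m' : ℕ} {x y z : B} {S S' : E}

theorem Ch.trans (h1 : Ch h f δ m x y S) (h2 : Ch h f δ m' y z S') :
    Ch h f δ (m + m') x z (S + S') := by
  obtain ⟨w₁, a0, a1, a2, a3⟩ := h1
  obtain ⟨w₂, b0, b1, b2, b3⟩ := h2
  obtain ⟨w, hw⟩ : ∃ w : ℕ → B, w = fun i => if i < m then w₁ i else w₂ (i - m) := ⟨_, rfl⟩
  have hA : ∀ i ≤ m, w i = w₁ i := by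
    intro i hi
    rw [hw]
    by_cases h1 : i < m
    · simp only [h1, if_true]
    · have h2 : i = m := by omega
      simp only [h1, if_false]
      rw [h2, Nat.sub_self, b0, a1]
  have hB : ∀ i, w (m + i) = w₂ i := by
    intro i
    rw [hw]
    have h1 : ¬ m + i < m := by omega
    simp only [h1, if_false]
    rw [Nat.add_sub_cancel_left]
  refine ⟨w, by rw [hA 0 (Nat.zero_le _), a0], by rw [hB, b1], ?_, ?_⟩
  · intro i hi
    by_cases h1 : i < m
    · rw [hA i h1.le, hA (i + 1) h1]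
      exact a2 i h1
    · obtain ⟨j, rfl⟩ := Nat.exists_eq_add_of_le (not_lt.1 h1)
      rw [add_assoc, hB, hB]
      exact b2 j (by omega)
  · rw [Finset.sum_range_add, ← a3, ← b3]
    congr 1
    · exact Finset.sum_congr rfl fun i hi => by rw [hA i (Finset.mem_range.1 hi).le]
    · exact Finset.sum_congr rfl fun i _ => by rw [hB]

theorem Ch.orbit (h : B → B) (f : B → E) (hδ : 0 < δ) (m : ℕ) (x : B) :
    Ch h f δ m x (h^[m] x) (birkhoffSum h f m x) := by
  refine ⟨fun i => h^[i] x, rfl, rfl, fun i _ => ?_, rfl⟩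
  show dist (h (h^[i] x)) (h^[i + 1] x) < δ
  rw [Function.iterate_succ_apply', dist_self]
  exact hδ

theorem Ch.loops (hδ : 0 < δ) {P : ℕ} (hP : h^[P] x = x) (n : ℕ) :
    Ch h f δ (n * P) x x (n • birkhoffSum h f P x) := by
  induction n with
  | zero =>
    rw [zero_mul, zero_smul]
    exact ⟨fun _ => x, rfl, rfl, fun i hi => absurd hi (Nat.not_lt_zero i), rfl⟩
  | succ n ih =>
    have h1 := Ch.orbit h f hδ P x
    rw [hP] at h1
    have h2 := ih.trans h1
    rw [← succ_nsmul] at h2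
    rw [Nat.succ_mul]
    exact h2

theorem Ch.cast (hm : m = m') (h1 : Ch h f δ m x y S) : Ch h f δ m' x y S := hm ▸ h1

end

/-- weights: the values of `τ` and the number of the visits to the `c`-ball around `b` -/
noncomputable def wt {B : Type v} [MetricSpace B] {E : Type w} (τ : B → E) (b : B) (c : ℝ) (x : B) :
    E × ℕ :=
  open scoped Classical in (τ x, if dist x b < c then 1 else 0)

section
variable {B : Type v} [MetricSpace B] {E : Type w} [NormedAddCommGroup E] {h : B → B} {τ : B → E}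
  {b : B} {c : ℝ}

theorem sum_wt_fst (w : ℕ → B) (m : ℕ) :
    (∑ i ∈ Finset.range m, wt τ b c (w i)).1 = ∑ i ∈ Finset.range m, τ (w i) := by
  rw [Prod.fst_sum]
  rfl

theorem sum_wt_snd_le (w : ℕ → B) (m : ℕ) :
    (∑ i ∈ Finset.range m, wt τ b c (w i)).2 ≤ m := by
  rw [Prod.snd_sum]
  refine (Finset.sum_le_card_nsmul _ _ 1 fun i _ => ?_).trans (by simp)
  unfold wt
  dsimp only
  split_ifs <;> omega

theorem ncard_le_sum_wt (w : ℕ → B) (m : ℕ) :
    {i | i < m ∧ dist (w i) b < c}.ncard ≤ (∑ i ∈ Finset.range m, wt τ b c (w i)).2 := by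
  classical
  rw [Prod.snd_sum]
  have h1 : {i | i < m ∧ dist (w i) b < c} =
      ((Finset.range m).filter (fun i => dist (w i) b < c) : Finset ℕ) := by
    ext i
    simp
  rw [h1, Set.ncard_coe_finset, Finset.card_filter]
  refine Finset.sum_le_sum fun i _ => ?_
  unfold wt
  dsimp only
  split_ifs <;> omega

theorem birkhoffSum_wt_of_far {x : B} (hx : ∀ i, c ≤ dist (h^[i] x) b) (m : ℕ) :
    birkhoffSum h (wt τ b c) m x = (birkhoffSum h τ m x, 0) := by
  unfold birkhoffSum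
  refine Prod.ext ?_ ?_
  · exact sum_wt_fst _ _
  · rw [Prod.snd_sum]
    refine Finset.sum_eq_zero fun i _ => ?_
    unfold wt
    dsimp only
    rw [if_neg (not_lt.2 (hx i))]

theorem norm_sum_le' {T : ℝ} (hT : ∀ x, ‖τ x‖ ≤ T) (w : ℕ → B) (m : ℕ) :
    ‖∑ i ∈ Finset.range m, τ (w i)‖ ≤ m * T := by
  refine (norm_sum_le_of_le _ (fun i _ => hT (w i))).trans ?_
  rw [Finset.sum_const, Finset.card_range, nsmul_eq_mul]

/-- a tour of finitely many periodic orbits -/
theorem tour {δ : ℝ} (hδ : 0 < δ) {T : ℝ} {L : ℕ}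
    (hL : ∀ x y : B, ∃ S : E × ℕ, ‖S.1‖ ≤ L * T ∧ S.2 ≤ L ∧ Ch h (wt τ b c) δ L x y S) {P : ℕ}
    (n : B → ℕ) (S : Finset B) (hS : ∀ p ∈ S, h^[P] p = p ∧ ∀ i, c ≤ dist (h^[i] p) b) (x : B) :
    ∃ (y : B) (A : E × ℕ), Ch h (wt τ b c) δ (∑ p ∈ S, n p * P + S.card * L) x y A ∧
      ‖A.1 - ∑ p ∈ S, n p • birkhoffSum h τ P p‖ ≤ S.card * (L * T) ∧ A.2 ≤ S.card * L := by
  classical
  induction S using Finset.induction_on generalizing x with
  | empty =>
    refine ⟨x, 0, ?_, by simp, by simp⟩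
    exact ⟨fun _ => x, rfl, rfl, by simp, by simp⟩
  | insert p S hp ih =>
    obtain ⟨A₁, h1, h2, h3⟩ := hL x p
    have hpp := hS p (Finset.mem_insert_self p S)
    have h4 := Ch.loops (f := wt τ b c) hδ hpp.1 (n p)
    obtain ⟨y, A₂, h5, h6, h7⟩ := ih (fun q hq => hS q (Finset.mem_insert_of_mem hq)) p
    refine ⟨y, _, Ch.cast ?_ ((h3.trans h4).trans h5), ?_, ?_⟩
    · rw [Finset.sum_insert hp, Finset.card_insert_of_notMem hp]
      ring
    · rw [Finset.sum_insert hp, Finset.card_insert_of_notMem hp, birkhoffSum_wt_of_far hpp.2]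
      have e : (A₁ + n p • (birkhoffSum h τ P p, (0 : ℕ)) + A₂).1 -
          (n p • birkhoffSum h τ P p + ∑ q ∈ S, n q • birkhoffSum h τ P q) =
          A₁.1 + (A₂.1 - ∑ q ∈ S, n q • birkhoffSum h τ P q) := by
        simp only [Prod.fst_add, Prod.smul_fst]
        abel
      rw [e]
      refine (norm_add_le _ _).trans ?_
      push_cast
      linarith
    · rw [Finset.card_insert_of_notMem hp, birkhoffSum_wt_of_far hpp.2]
      simp only [Prod.snd_add, Prod.smul_snd, smul_zero, add_zero]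
      rw [Nat.add_mul, one_mul]
      omega

end

end Pool.Agent.T6.H48.AM
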