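import Pool.Agent.W564.SC.Defs

/-!
# Extensions of hyperbolic systems by actions of `ℝᵏ`: definitions

`V n = ℝⁿ`, `DiffM n N r = Diff^r(N)`, `strongTop n N r` its strong (Whitney) `C^r` topology
(`Pool/Agent/H718R2/G0.lean`); `NonWand`, `PerShadow`, `ChainMix`: `Pool/Agent/W564/SC/Defs.lean`.
-/

set_option autoImplicit false

open scoped Manifold ContDiff Topology

namespace Pool.Agent.T6.H48.AM

open Pool.Agent.H718R2.G Pool.Agent.W564.SC

/-- `R` is a smooth action of `ℝᵏ` on `N` (`k` commuting complete smooth flows). -/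
structure IsAction (k n : ℕ) (N : Type*) [TopologicalSpace N] [ChartedSpace (V n) N]
    (R : V k → N → N) : Prop where
  smooth : ContMDiff ((𝓡 k).prod (𝓡 n)) (𝓡 n) ∞ (fun q : V k × N => R q.1 q.2)
  zero : ∀ y, R 0 y = y
  add : ∀ a b y, R (a + b) y = R a (R b y)

/-- The skew product `(b, y) ↦ (h b, φ_{τ(b)} (g y))`. -/
def skew {k : ℕ} {B Y : Type*} (h : B → B) (g : Y → Y) (φ : V k → Y → Y) (τ : B → V k)
    (p : B × Y) : B × Y :=
  (h p.1, φ (τ p.1) (g p.2))

/-- On the set `Θ(B × Y)`, which is invariant under `F` and the action `R`, `F` is the skew product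
`(b, y) ↦ (h b, φ_{τ(b)} (g y))` and `R` acts on the second factor, by `φ`; `g` commutes with `φ`. -/
structure IsSkew (k n : ℕ) {N : Type*} [TopologicalSpace N] [ChartedSpace (V n) N] (F : N → N)
    (R : V k → N → N) {B Y : Type*} [TopologicalSpace B] [TopologicalSpace Y]
    (h : B → B) (g : Y → Y) (φ : V k → Y → Y) (τ : B → V k) (Θ : B × Y → N) : Prop where
  emb : Topology.IsEmbedding Θ
  cont : Continuous τ
  comm : ∀ s y, g (φ s y) = φ s (g y)
  act : ∀ s b y, R s (Θ (b, y)) = Θ (b, φ s y)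
  map : ∀ p, F (Θ p) = Θ (skew h g φ τ p)

/-- `y` is recurrent in the fibre, up to arbitrarily small constant changes of the speed: for each
neighbourhood `W` of `y` there are an arbitrarily small `s ∈ ℝᵏ` and an arbitrarily large `m` such that
some point of `B × W` is in `B × W` after `m` steps of the skew product for the function `τ + s`. -/
def FibreRec {k : ℕ} {B Y : Type*} [TopologicalSpace Y] (h : B → B) (g : Y → Y)
    (φ : V k → Y → Y) (τ : B → V k) (y : Y) : Prop :=
  ∀ W ∈ 𝓝 y, ∀ ε : ℝ, 0 < ε → ∀ M : ℕ, ∃ (s : V k) (m : ℕ) (p : B × Y),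
    ‖s‖ ≤ ε ∧ M ≤ m ∧ p.2 ∈ W ∧ ((skew h g φ (fun b => τ b + s))^[m] p).2 ∈ W

end Pool.Agent.T6.H48.AM
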