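import Pool.Agent.W564.SC.Lib

/-!
# Closing with a bounded number of visits near the initial point
-/

set_option autoImplicit false

open scoped Manifold ContDiff Topology
open Filter Set Metric

universe u v w

namespace Pool.Agent.T6.H48.AM

open Pool.Agent.H718R2.G Pool.Agent.W564.SC

/-- intermediate visits to the `ρ`-ball around the initial point -/
def visits {n : ℕ} {N : Type u} [TopologicalSpace N] (χ : OpenPartialHomeomorph N (V n))
    (f : N → N) (z : N) (ρ : ℝ) (m : ℕ) : Set ℕ :=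
  {i | 0 < i ∧ i < m ∧ f^[i] z ∈ χ.source ∧ ‖χ (f^[i] z) - χ z‖ < ρ}

theorem visits_finite {n : ℕ} {N : Type u} [TopologicalSpace N]
    (χ : OpenPartialHomeomorph N (V n)) (f : N → N) (z : N) (ρ : ℝ) (m : ℕ) :
    (visits χ f z ρ m).Finite :=
  (Set.finite_lt_nat m).subset fun _ hi => hi.2.1

theorem close_of_visits (n : ℕ) (N : Type u) [TopologicalSpace N] [T2Space N] [CompactSpace N]
    [ChartedSpace (V n) N] [IsManifold (𝓡 n) ∞ N] (r : ℕ∞) (hr : 1 ≤ r)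
    (P : Type) [NormedAddCommGroup P] [NormedSpace ℝ P] (H : P → DiffM n N r)
    (hH : IsFam n N r H) (χ : OpenPartialHomeomorph N (V n)) (z : N) (hχ : GoodChart n N χ z)
    (U : Set (DiffM n N r)) (hU : IsOpen[strongTop n N r] U) (hHU : H 0 ∈ U) :
    ∃ κ : ℝ, 0 < κ ∧ ∀ ρ₀ : ℝ, 0 < ρ₀ → ∀ C : ℕ, ∃ δ : ℝ, 0 < δ ∧
      ∀ (s : P) (z' : N) (m : ℕ), ‖s‖ < κ → z' ∈ χ.source → ‖χ z'‖ < κ → 1 ≤ m →
        (H s)^[m] z' ∈ χ.source → ‖χ ((H s)^[m] z') - χ z'‖ < δ →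
        (visits χ (H s) z' ρ₀ m).ncard ≤ C → ∃ G ∈ U, IsPer G z := by
  obtain ⟨k, hk, κ, hκ, hcl⟩ := t_CL n N r hr P H hH χ z hχ U hU hHU
  refine ⟨κ, hκ, fun ρ₀ hρ₀ C => ?_⟩
  induction C with
  | zero =>
    have hρ : 0 < min (ρ₀ / 2) (κ / 2) := lt_min (half_pos hρ₀) (half_pos hκ)
    refine ⟨κ * (min (ρ₀ / 2) (κ / 2)) ^ k, by positivity, ?_⟩
    intro s z' m hs hz' hn hm hsrc hd hC
    refine hcl s z' _ m hs hz' hn hρ ((min_le_right _ _).trans_lt (half_lt_self hκ)) hm hsrc hd ?_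
    intro i hi0 him hi
    by_contra hcon
    push Not at hcon
    have h1 : i ∈ visits χ (H s) z' ρ₀ m := by
      refine ⟨hi0, him, hi, hcon.trans_le ?_⟩
      have := min_le_left (ρ₀ / 2) (κ / 2)
      linarith
    have h2 := (Set.ncard_pos (visits_finite χ (H s) z' ρ₀ m)).2 ⟨i, h1⟩
    omega
  | succ C ih =>
    obtain ⟨δ', hδ', hih⟩ := ih
    have hρ : 0 < min (min (ρ₀ / 2) (δ' / 2)) (κ / 2) :=
      lt_min (lt_min (half_pos hρ₀) (half_pos hδ')) (half_pos hκ)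
    refine ⟨κ * (min (min (ρ₀ / 2) (δ' / 2)) (κ / 2)) ^ k, by positivity, ?_⟩
    intro s z' m hs hz' hn hm hsrc hd hC
    by_cases hall : ∀ i, 0 < i → i < m → (H s)^[i] z' ∈ χ.source →
        2 * min (min (ρ₀ / 2) (δ' / 2)) (κ / 2) ≤ ‖χ ((H s)^[i] z') - χ z'‖
    · exact hcl s z' _ m hs hz' hn hρ ((min_le_right _ _).trans_lt (half_lt_self hκ)) hm hsrc hd
        hall
    · push Not at hall
      obtain ⟨l, hl0, hlm, hl, hld⟩ := hall
      have e1 : min (min (ρ₀ / 2) (δ' / 2)) (κ / 2) ≤ ρ₀ / 2 :=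
        (min_le_left _ _).trans (min_le_left _ _)
      have e2 : min (min (ρ₀ / 2) (δ' / 2)) (κ / 2) ≤ δ' / 2 :=
        (min_le_left _ _).trans (min_le_right _ _)
      refine hih s z' l hs hz' hn hl0 hl (by linarith) ?_
      have h1 : l ∈ visits χ (H s) z' ρ₀ m := ⟨hl0, hlm, hl, by linarith⟩
      have h2 : visits χ (H s) z' ρ₀ l ⊂ visits χ (H s) z' ρ₀ m := by
        refine ⟨fun i hi => ⟨hi.1, hi.2.1.trans hlm, hi.2.2⟩, fun hsub => ?_⟩
        exact lt_irrefl _ (hsub h1).2.1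
      have h3 := Set.ncard_lt_ncard h2 (visits_finite χ (H s) z' ρ₀ m)
      omega

end Pool.Agent.T6.H48.AM
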