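import Pool.Agent.T6.H48.AM.Defs
import Pool.Agent.T6.H48.AM.Visits
import Pool.Agent.T6.H48.AM.Approx
import Pool.Agent.W564.SC.LibA

/-!
# The closing lemma for extensions of hyperbolic systems by actions of `ℝᵏ`
-/

set_option autoImplicit false

open scoped Manifold ContDiff Topology
open Filter Set Metric

universe u v w

namespace Pool.Agent.T6.H48.AM

open Pool.Agent.H718R2.G Pool.Agent.W564.SC

section family
variable {k n : ℕ} {N : Type u} [TopologicalSpace N] [ChartedSpace (V n) N]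
  {R : V k → N → N}

/-- the diffeomorphisms of an action -/
noncomputable def actDiff (hR : IsAction k n N R) (r : ℕ∞) (s : V k) : DiffM n N r where
  toFun := R s
  invFun := R (-s)
  left_inv y := by rw [← hR.add, neg_add_cancel, hR.zero]
  right_inv y := by rw [← hR.add, add_neg_cancel, hR.zero]
  contMDiff_toFun := by
    have h1 : ContMDiff (𝓡 n) ((𝓡 k).prod (𝓡 n)) ∞ (fun y : N => ((s : V k), y)) :=
      contMDiff_const.prodMk contMDiff_id
    exact (hR.smooth.comp h1).of_le (by exact_mod_cast le_top)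
  contMDiff_invFun := by
    have h1 : ContMDiff (𝓡 n) ((𝓡 k).prod (𝓡 n)) ∞ (fun y : N => ((-s : V k), y)) :=
      contMDiff_const.prodMk contMDiff_id
    exact (hR.smooth.comp h1).of_le (by exact_mod_cast le_top)

theorem exists_fam (hR : IsAction k n N R) {r : ℕ∞} (F : DiffM n N r) :
    ∃ H : V k → DiffM n N r, (∀ s y, H s y = R s (F y)) ∧ H 0 = F ∧ IsFam n N r H := by
  refine ⟨fun s => F.trans (actDiff hR r s), fun s y => rfl, ?_, ?_⟩
  · apply Diffeomorph.ext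
    intro y
    exact hR.zero (F y)
  · intro y
    have h1 : ContMDiff ((𝓡 k).prod (𝓡 n)) ((𝓡 k).prod (𝓡 n)) r
        (fun q : V k × N => (q.1, F q.2)) :=
      contMDiff_fst.prodMk (F.contMDiff.comp contMDiff_snd)
    have h2 : ContMDiff ((𝓡 k).prod (𝓡 n)) (𝓡 n) r (fun q : V k × N => R q.1 q.2) :=
      hR.smooth.of_le (by exact_mod_cast le_top)
    exact (h2.comp h1).contMDiffAt

end family

section skew
variable {k n : ℕ} {N : Type u} [TopologicalSpace N] [ChartedSpace (V n) N] {F : N → N}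
  {R : V k → N → N} {B : Type v} {Y : Type w} [TopologicalSpace B] [TopologicalSpace Y]
  {h : B → B} {g : Y → Y} {φ : V k → Y → Y} {τ : B → V k} {Θ : B × Y → N}

theorem IsSkew.add (hR : IsAction k n N R) (hF : IsSkew k n F R h g φ τ Θ) (b : B) (s t : V k)
    (y : Y) : φ (s + t) y = φ s (φ t y) := by
  have h1 : Θ (b, φ (s + t) y) = Θ (b, φ s (φ t y)) := by
    rw [← hF.act, ← hF.act, ← hF.act, hR.add]
  exact (Prod.mk.inj (hF.emb.injective h1)).2

theorem IsSkew.zero (hR : IsAction k n N R) (hF : IsSkew k n F R h g φ τ Θ) (b : B) (y : Y) :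
    φ 0 y = y := by
  have h1 : Θ (b, φ 0 y) = Θ (b, y) := by rw [← hF.act, hR.zero]
  exact (Prod.mk.inj (hF.emb.injective h1)).2

theorem IsSkew.cont_act (hR : IsAction k n N R) (hF : IsSkew k n F R h g φ τ Θ) (b : B) :
    Continuous (fun q : V k × Y => φ q.1 q.2) := by
  have h1 : Continuous (fun q : V k × Y => Θ (b, φ q.1 q.2)) := by
    have h2 : (fun q : V k × Y => Θ (b, φ q.1 q.2)) = fun q : V k × Y => R q.1 (Θ (b, q.2)) := by
      funext q
      exact (hF.act q.1 b q.2).symm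
    rw [h2]
    exact hR.smooth.continuous.comp (continuous_fst.prodMk
      (hF.emb.continuous.comp (continuous_const.prodMk continuous_snd)))
  have h3 : Continuous (fun q : V k × Y => (b, φ q.1 q.2)) :=
    hF.emb.continuous_iff.2 h1
  exact continuous_snd.comp h3

theorem skew_cont (hφ : Continuous (fun q : V k × Y => φ q.1 q.2)) (hh : Continuous h)
    (hg : Continuous g) (hτ : Continuous τ) : Continuous (skew h g φ τ) :=
  (hh.comp continuous_fst).prodMk
    (hφ.comp ((hτ.comp continuous_fst).prodMk (hg.comp continuous_snd)))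

theorem comm_iter (hc : ∀ s y, g (φ s y) = φ s (g y)) (i : ℕ) (s : V k) (y : Y) :
    g^[i] (φ s y) = φ s (g^[i] y) := by
  induction i with
  | zero => rfl
  | succ i ih => rw [Function.iterate_succ_apply', ih, hc, Function.iterate_succ_apply']

theorem skew_iter (hc : ∀ s y, g (φ s y) = φ s (g y)) (h0 : ∀ y, φ 0 y = y)
    (ha : ∀ s t y, φ (s + t) y = φ s (φ t y)) (i : ℕ) (b : B) (y : Y) :
    (skew h g φ τ)^[i] (b, y) = (h^[i] b, φ (birkhoffSum h τ i b) (g^[i] y)) := by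
  induction i with
  | zero =>
    rw [birkhoffSum_zero, h0]
    rfl
  | succ i ih =>
    rw [Function.iterate_succ_apply', ih]
    unfold skew
    dsimp only
    rw [hc, ← ha, birkhoffSum_succ, Function.iterate_succ_apply', Function.iterate_succ_apply',
      add_comm]

/-- iterates of the perturbed maps -/
theorem iter_fam (hR : IsAction k n N R) (hF : IsSkew k n F R h g φ τ Θ) {f : N → N} {s : V k}
    (hf : ∀ y, f y = R s (F y)) (i : ℕ) (b : B) (y : Y) :
    f^[i] (Θ (b, y)) = Θ (h^[i] b, φ ((i : ℝ) • s + birkhoffSum h τ i b) (g^[i] y)) := by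
  induction i with
  | zero =>
    rw [birkhoffSum_zero, Nat.cast_zero, zero_smul, add_zero, hF.zero hR b]
    rfl
  | succ i ih =>
    rw [Function.iterate_succ_apply', ih, hf, hF.map]
    unfold skew
    dsimp only
    rw [hF.act, hF.comm, ← hF.add hR b, ← hF.add hR b, birkhoffSum_succ,
      Function.iterate_succ_apply', Function.iterate_succ_apply']
    congr 3
    push_cast
    rw [add_smul, one_smul]
    abel

end skew

theorem birkhoffSum_add_const {k : ℕ} {B : Type*} (h : B → B) (τ : B → V k) (s : V k) (m : ℕ)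
    (b : B) : birkhoffSum h (fun b => τ b + s) m b = (m : ℝ) • s + birkhoffSum h τ m b := by
  unfold birkhoffSum
  rw [Finset.sum_add_distrib, Finset.sum_const, Finset.card_range, add_comm, Nat.cast_smul_eq_nsmul]

theorem main {k n : ℕ} {N : Type u} [TopologicalSpace N] [T2Space N] [CompactSpace N]
    [ChartedSpace (V n) N] [IsManifold (𝓡 n) ∞ N] (r : ℕ∞) (hr : 1 ≤ r) (F : DiffM n N r)
    {R : V k → N → N} (hR : IsAction k n N R)
    {B : Type v} {Y : Type w} [MetricSpace B] [CompactSpace B] [Nontrivial B] [MetricSpace Y]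
    [CompactSpace Y] (h : B ≃ₜ B) (hsh : PerShadow h) (hmix : ChainMix h) (g : Y ≃ₜ Y)
    {φ : V k → Y → Y} {τ : B → V k} {Θ : B × Y → N} (hF : IsSkew k n F R h g φ τ Θ) (b : B) (y : Y)
    (hy : FibreRec h g φ τ y) : Closable n N r F (Θ (b, y)) := by
  intro U hU hFU
  obtain ⟨H, hH1, hH0, hHf⟩ := exists_fam hR F
  obtain ⟨χ, hχ⟩ := Pool.Agent.W699.SC.gc n N (Θ (b, y))
  obtain ⟨κ, hκ, hcl⟩ := close_of_visits n N r hr (V k) H hHf χ (Θ (b, y)) hχ U hU
    (by rw [hH0]; exact hFU)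
  obtain ⟨η, hη, hball⟩ := Pool.Agent.W216.SC.good_ball hF.emb hχ rfl
    (lt_min hκ (half_pos one_pos) : (0 : ℝ) < min κ (1 / 2))
  have hκ4 : 0 < κ / 4 := by positivity
  obtain ⟨ρ, C, M₀, hρ, happ⟩ := approx h hsh hmix τ hF.cont b (κ / 4) η hκ4 hη
  obtain ⟨ρ₀, hρ₀, hsep⟩ := Pool.Agent.W216.SC.sep (X := B) (Y := Y) hF.emb hχ hρ
  obtain ⟨δ, hδ, hcl⟩ := hcl ρ₀ hρ₀ C
  -- uniform continuity
  have hBc : IsCompact (closedBall ((b, y) : B × Y) η) := Metric.isClosed_closedBall.isCompact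
  have hco : ContinuousOn (fun p : B × Y => χ (Θ p)) (closedBall ((b, y) : B × Y) η) := by
    apply χ.continuousOn.comp hF.emb.continuous.continuousOn
    intro p hp
    exact (hball p hp).1
  have huc := hBc.uniformContinuousOn_of_continuous hco
  rw [Metric.uniformContinuousOn_iff] at huc
  obtain ⟨ε₃, hε₃, huc'⟩ := huc δ hδ
  obtain ⟨s₀, m, ⟨b₁, y₁⟩, hs₀, hmM, hd1, hd2⟩ := hy (ball y (min η (ε₃ / 2)))
    (ball_mem_nhds _ (lt_min hη (half_pos hε₃))) (κ / 4) hκ4 (max M₀ 1)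
  have hm1 : 1 ≤ m := (le_max_right _ _).trans hmM
  rw [skew_iter hF.comm (hF.zero hR b) (hF.add hR b), birkhoffSum_add_const] at hd2
  dsimp only at hd1 hd2
  rw [mem_ball] at hd1 hd2
  obtain ⟨b', hb'1, hb'2, hb'3, hb'4⟩ := happ m ((le_max_left _ _).trans hmM) b₁
  have hm0 : (0 : ℝ) < m := by exact_mod_cast hm1
  obtain ⟨s, hs⟩ : ∃ s : V k,
      s = s₀ + (m : ℝ)⁻¹ • (birkhoffSum h τ m b₁ - birkhoffSum h τ m b') := ⟨_, rfl⟩
  have hms : (m : ℝ) • s + birkhoffSum h τ m b' = (m : ℝ) • s₀ + birkhoffSum h τ m b₁ := by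
    rw [hs, smul_add, smul_smul, mul_inv_cancel₀ hm0.ne', one_smul, add_assoc, sub_add_cancel]
  have hsn : ‖s‖ < κ := by
    have h1 : ‖(m : ℝ)⁻¹ • (birkhoffSum h τ m b₁ - birkhoffSum h τ m b')‖ ≤ κ / 4 := by
      rw [norm_smul, norm_inv, Real.norm_natCast, norm_sub_rev]
      calc (m : ℝ)⁻¹ * ‖birkhoffSum h τ m b' - birkhoffSum h τ m b₁‖ ≤ (m : ℝ)⁻¹ * (m * (κ / 4)) := by
            gcongr
        _ = κ / 4 := by field_simp
    have h2 : ‖s‖ ≤ ‖s₀‖ + ‖(m : ℝ)⁻¹ • (birkhoffSum h τ m b₁ - birkhoffSum h τ m b')‖ := by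
      rw [hs]
      exact norm_add_le _ _
    linarith
  have hit : ∀ i, (H s)^[i] (Θ (b', y₁)) =
      Θ (h^[i] b', φ ((i : ℝ) • s + birkhoffSum h τ i b') (g^[i] y₁)) := fun i =>
    iter_fam hR hF (hH1 s) i b' y₁
  obtain ⟨y₂, hy₂⟩ : ∃ y₂, y₂ = φ ((m : ℝ) • s₀ + birkhoffSum h τ m b₁) (g^[m] y₁) := ⟨_, rfl⟩
  rw [← hy₂] at hd2
  have hitm : (H s)^[m] (Θ (b', y₁)) = Θ (b', y₂) := by rw [hit, hms, hb'2, hy₂]
  have hm1' : dist ((b', y₁) : B × Y) (b, y) ≤ η := by
    rw [Prod.dist_eq]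
    exact max_le hb'1.le (hd1.le.trans (min_le_left _ _))
  have hm2' : dist ((b', y₂) : B × Y) (b, y) ≤ η := by
    rw [Prod.dist_eq]
    exact max_le hb'1.le (hd2.le.trans (min_le_left _ _))
  obtain ⟨hs1, hs1'⟩ := hball _ hm1'
  obtain ⟨hs2, hs2'⟩ := hball _ hm2'
  refine hcl s (Θ (b', y₁)) m hsn hs1 (hs1'.trans_le (min_le_left _ _)) hm1 ?_ ?_ ?_
  · rw [hitm]
    exact hs2
  · rw [hitm, ← dist_eq_norm]
    apply huc' (b', y₂) hm2' (b', y₁) hm1'
    rw [Prod.dist_eq]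
    simp only [dist_self]
    have h5 := dist_triangle_right y₂ y₁ y
    have h6 := min_le_right η (ε₃ / 2)
    apply max_lt hε₃
    linarith
  · refine (Set.ncard_le_ncard ?_ ((Set.finite_lt_nat m).subset fun _ hi => hi.1)).trans hb'4
    rintro i ⟨_, him, hisrc, hid⟩
    refine ⟨him, ?_⟩
    by_contra hcon
    push Not at hcon
    rw [hit] at hisrc hid
    have h7 := hsep (b', y₁) (h^[i] b', φ ((i : ℝ) • s + birkhoffSum h τ i b') (g^[i] y₁)) ?_ hs1
      (hs1'.trans_le (min_le_right _ _)) hisrc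
    · linarith
    · rw [Prod.dist_eq]
      exact hcon.trans (le_max_left _ _)

/-! ### sufficient conditions for `FibreRec` -/

theorem nonwand_long {X : Type*} [MetricSpace X] {f : X → X} (hf : Continuous f) {x : X}
    (hw : NonWand f x) (hx : ∀ b : ℕ, 1 ≤ b → f^[b] x ≠ x) (ε : ℝ) (hε : 0 < ε) (M : ℕ) :
    ∃ (x1 : X) (m : ℕ), M ≤ m ∧ 1 ≤ m ∧ dist x1 x < ε ∧ dist (f^[m] x1) x < ε := by
  obtain ⟨c, hc, hcm⟩ := Pool.Agent.W216.SC.exists_pos_le (Finset.Ico 1 M)
    (fun i => dist (f^[i] x) x) (by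
      intro i hi
      rw [Finset.mem_Ico] at hi
      exact dist_pos.2 (hx i hi.1))
  have hW : {x' : X | dist x' x < min ε (c / 2) ∧
      ∀ i ∈ Finset.Ico 1 M, dist (f^[i] x') (f^[i] x) < c / 2} ∈ 𝓝 x := by
    have h1 : ∀ᶠ x' in 𝓝 x, dist x' x < min ε (c / 2) :=
      Metric.ball_mem_nhds x (lt_min hε (half_pos hc))
    have h2 : ∀ᶠ x' in 𝓝 x, ∀ i ∈ Finset.Ico 1 M, dist (f^[i] x') (f^[i] x) < c / 2 := by
      rw [Finset.eventually_all]
      intro i _
      have h3 : ContinuousAt (f^[i]) x := (hf.iterate i).continuousAt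
      exact h3 (Metric.ball_mem_nhds _ (half_pos hc))
    exact h1.and h2
  obtain ⟨m, hm, x1, hx1, hx1'⟩ := hw _ hW
  refine ⟨x1, m, ?_, hm, hx1.1.trans_le (min_le_left _ _), hx1'.1.trans_le (min_le_left _ _)⟩
  by_contra hM
  have hmem : m ∈ Finset.Ico 1 M := by rw [Finset.mem_Ico]; omega
  have h1 := hcm m hmem
  have h2 := hx1.2 m hmem
  have h3 : dist (f^[m] x1) x < c / 2 := hx1'.1.trans_le (min_le_right _ _)
  have h4 := dist_triangle (f^[m] x) (f^[m] x1) x
  rw [dist_comm] at h2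
  linarith

section cor
variable {k : ℕ} {B : Type v} {Y : Type w} [MetricSpace B] [MetricSpace Y]

/-- returns with `s = 0` -/
theorem fibreRec_of_returns {h : B → B} {g : Y → Y} {φ : V k → Y → Y} {τ : B → V k} {y : Y}
    (H : ∀ ε : ℝ, 0 < ε → ∀ M : ℕ, ∃ (m : ℕ) (p : B × Y), M ≤ m ∧ dist p.2 y < ε ∧
      dist ((skew h g φ τ)^[m] p).2 y < ε) : FibreRec h g φ τ y := by
  intro W hW ε hε M
  obtain ⟨ρ, hρ, hρW⟩ := Metric.mem_nhds_iff.1 hW
  obtain ⟨m, p, hm, h1, h2⟩ := H ρ hρ M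
  refine ⟨0, m, p, by rw [norm_zero]; exact hε.le, hm, hρW h1, hρW ?_⟩
  have e : (fun b => τ b + 0) = τ := by funext b; rw [add_zero]
  rw [e]
  exact h2

/-- points which are nonwandering for the skew product -/
theorem fibreRec_of_nonWand {h : B → B} {g : Y → Y} {φ : V k → Y → Y} {τ : B → V k}
    (hc : Continuous (skew h g φ τ)) {b : B} {y : Y} (hz : NonWand (skew h g φ τ) (b, y)) :
    FibreRec h g φ τ y := by
  refine fibreRec_of_returns fun ε hε M => ?_
  by_cases hper : ∃ a : ℕ, 1 ≤ a ∧ (skew h g φ τ)^[a] (b, y) = (b, y)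
  · obtain ⟨a, ha, haz⟩ := hper
    refine ⟨a * M, (b, y), Nat.le_mul_of_pos_left M ha, by simpa using hε, ?_⟩
    have h1 : (skew h g φ τ)^[a * M] (b, y) = (b, y) := by
      rw [Function.iterate_mul]
      exact Function.iterate_fixed haz M
    rw [h1]
    simpa using hε
  · push Not at hper
    obtain ⟨p, m, hm, _, h1, h2⟩ := nonwand_long hc hz hper ε hε M
    refine ⟨m, p, hm, ?_, ?_⟩
    · rw [Prod.dist_eq] at h1
      exact (le_max_right _ _).trans_lt h1
    · rw [Prod.dist_eq] at h2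
      exact (le_max_right _ _).trans_lt h2

/-- `g = id` and a periodic point of `h` over which the sum of `τ` vanishes -/
theorem fibreRec_of_zero {h : B → B} {φ : V k → Y → Y} {τ : B → V k} (h0 : ∀ y, φ 0 y = y)
    (ha : ∀ s t y, φ (s + t) y = φ s (φ t y)) {b₀ : B} {a : ℕ} (ha1 : 1 ≤ a) (hb : h^[a] b₀ = b₀)
    (hτ : birkhoffSum h τ a b₀ = 0) (y : Y) : FibreRec h id φ τ y := by
  refine fibreRec_of_returns fun ε hε M => ?_
  refine ⟨M * a, (b₀, y), Nat.le_mul_of_pos_right M ha1, by simpa using hε, ?_⟩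
  rw [skew_iter (g := id) (φ := φ) (fun _ _ => rfl) h0 ha]
  have h1 : birkhoffSum h τ (M * a) b₀ = 0 := by
    rw [birkhoffSum_blocks]
    refine Finset.sum_eq_zero fun i _ => ?_
    have h2 : h^[i * a] b₀ = b₀ := by
      rw [mul_comm, Function.iterate_mul]
      exact Function.iterate_fixed hb i
    rw [h2, hτ]
  rw [h1, h0, Function.iterate_id]
  simpa using hε

theorem norm_V_one (x : V 1) : ‖x‖ = |x 0| := by
  rw [EuclideanSpace.norm_eq, Fin.sum_univ_one, Real.norm_eq_abs, Real.sqrt_sq (abs_nonneg _)]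

/-- returns of the flow give returns of the skew product up to a small speed -/
theorem fibre_aux {h : B → B} {φ : V 1 → Y → Y} {τ : B → V 1} (h0 : ∀ y, φ 0 y = y)
    (ha : ∀ s t y, φ (s + t) y = φ s (φ t y)) {b₀ : B} {a : ℕ} (ha1 : 1 ≤ a) (hb : h^[a] b₀ = b₀)
    {c : ℝ} (hc : c = 1 ∨ c = -1) (hτ : 0 < c * (birkhoffSum h τ a b₀) 0) {y : Y}
    (hy : ∀ W ∈ 𝓝 y, ∀ T : ℝ, ∃ t : V 1, T ≤ c * t 0 ∧ ∃ y₁ ∈ W, φ t y₁ ∈ W) :
    FibreRec h id φ τ y := by
  intro W hW ε hε M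
  obtain ⟨α, hα⟩ : ∃ α : ℝ, α = c * (birkhoffSum h τ a b₀) 0 := ⟨_, rfl⟩
  rw [← hα] at hτ
  obtain ⟨J, hJ⟩ := exists_nat_gt (α / ε)
  obtain ⟨t, ht, y₁, hy₁, hy₂⟩ := hy W hW (α * (J + M + 1 : ℕ))
  obtain ⟨j, hj⟩ : ∃ j : ℕ, j = ⌊c * t 0 / α⌋₊ := ⟨_, rfl⟩
  have hjJ : J + M + 1 ≤ j := by
    rw [hj]
    apply Nat.le_floor
    rw [le_div_iff₀ hτ, mul_comm]
    exact ht
  have ht0 : 0 ≤ c * t 0 / α := by
    apply div_nonneg _ hτ.le
    refine le_trans ?_ ht
    positivity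
  have hj1 : (j : ℝ) * α ≤ c * t 0 := by
    have := Nat.floor_le ht0
    rw [← hj, le_div_iff₀ hτ] at this
    exact this
  have hj2 : c * t 0 < (j + 1) * α := by
    have := Nat.lt_floor_add_one (c * t 0 / α)
    rw [← hj, div_lt_iff₀ hτ] at this
    exact this
  have hm : 1 ≤ j * a := Nat.mul_pos (by omega) (by omega)
  have hm' : (0 : ℝ) < (j * a : ℕ) := by exact_mod_cast hm
  obtain ⟨s, hs⟩ : ∃ s : V 1, s = ((j * a : ℕ) : ℝ)⁻¹ • (t - birkhoffSum h τ (j * a) b₀) :=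
    ⟨_, rfl⟩
  have hsum : birkhoffSum h τ (j * a) b₀ = (j : ℝ) • birkhoffSum h τ a b₀ := by
    rw [birkhoffSum_blocks]
    have h1 : ∀ i ∈ Finset.range j, birkhoffSum h τ a (h^[i * a] b₀) = birkhoffSum h τ a b₀ := by
      intro i _
      have h2 : h^[i * a] b₀ = b₀ := by
        rw [mul_comm, Function.iterate_mul]
        exact Function.iterate_fixed hb i
      rw [h2]
    rw [Finset.sum_congr rfl h1, Finset.sum_const, Finset.card_range, Nat.cast_smul_eq_nsmul]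
  have hc2 : c * c = 1 := by rcases hc with rfl | rfl <;> norm_num
  have hcabs : |c| = 1 := by rcases hc with rfl | rfl <;> norm_num
  have hms : ((j * a : ℕ) : ℝ) • s + birkhoffSum h τ (j * a) b₀ = t := by
    rw [hs, smul_smul, mul_inv_cancel₀ hm'.ne', one_smul, sub_add_cancel]
  refine ⟨s, j * a, (b₀, y₁), ?_, ?_, hy₁, ?_⟩
  · rw [hs, norm_smul, norm_inv, Real.norm_natCast, norm_V_one, hsum]
    have h1 : |(t - (j : ℝ) • birkhoffSum h τ a b₀) 0| = |c * t 0 - j * α| := by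
      have h2 : c * t 0 - j * α = c * (t - (j : ℝ) • birkhoffSum h τ a b₀) 0 := by
        rw [hα]
        simp only [PiLp.sub_apply, PiLp.smul_apply, smul_eq_mul]
        ring
      rw [h2, abs_mul, hcabs, one_mul]
    rw [h1, abs_of_nonneg (by linarith)]
    rw [inv_mul_le_iff₀ hm']
    have h3 : α ≤ ε * J := by
      rw [div_lt_iff₀ hε] at hJ
      linarith
    have h4 : (J : ℝ) ≤ (j * a : ℕ) := by
      have : J ≤ j * a := by
        have : j * 1 ≤ j * a := Nat.mul_le_mul_left j ha1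
        omega
      exact_mod_cast this
    nlinarith
  · have : j * 1 ≤ j * a := Nat.mul_le_mul_left j ha1
    omega
  · rw [skew_iter (g := id) (φ := φ) (fun _ _ => rfl) h0 ha, birkhoffSum_add_const, hms,
      Function.iterate_id]
    exact hy₂

/-- `g = id`, `k = 1`: points which are nonwandering for the flow `φ` -/
theorem fibreRec_of_flow [CompactSpace B] [Nontrivial B] (h : B ≃ₜ B) (hsh : PerShadow h)
    (hmix : ChainMix h) {φ : V 1 → Y → Y} {τ : B → V 1} (h0 : ∀ y, φ 0 y = y)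
    (ha : ∀ s t y, φ (s + t) y = φ s (φ t y)) {y : Y}
    (hy : ∀ W ∈ 𝓝 y, ∀ T : ℝ, ∃ t : V 1, T ≤ t 0 ∧ ∃ y₁ ∈ W, φ t y₁ ∈ W) :
    FibreRec h id φ τ y := by
  obtain ⟨x₀, x₁, _⟩ := exists_pair_ne B
  obtain ⟨b₀, a, ha1, hb, _⟩ := Pool.Agent.W816.SC.exists_other hsh hmix x₀
  rcases lt_trichotomy ((birkhoffSum h τ a b₀) 0) 0 with hlt | heq | hgt
  · refine fibre_aux h0 ha ha1 hb (c := -1) (Or.inr rfl) (by linarith) ?_
    intro W hW T
    obtain ⟨t, ht, y₁, hy₁, hy₂⟩ := hy W hW T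
    refine ⟨-t, ?_, φ t y₁, hy₂, ?_⟩
    · rw [PiLp.neg_apply]
      linarith
    · rw [← ha, neg_add_cancel, h0]
      exact hy₁
  · refine fibreRec_of_zero h0 ha ha1 hb ?_ y
    ext i
    fin_cases i
    exact heq
  · refine fibre_aux h0 ha ha1 hb (c := 1) (Or.inl rfl) (by linarith) ?_
    intro W hW T
    obtain ⟨t, ht, y₁, hy₁, hy₂⟩ := hy W hW T
    exact ⟨t, by linarith, y₁, hy₁, hy₂⟩

end cor

end Pool.Agent.T6.H48.AM
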